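import Pool.Agent.H424.SG.Split

/-!
# Case B: almost all columns contain as many zeros as possible
-/

set_option autoImplicit false
open Finset Polynomial

namespace Pool.Agent.H424.SG

open Pool.Agent.H108.St

theorem exists_base (G : ℤ[X][X]) (hG : G ≠ 0) (a r : ℕ) (ha1 : 1 ≤ a)
    (ha : ∀ j, (G.coeff j).natDegree ≤ a) (hr : 3844 * a ^ 2 + (10 * a + 1) ≤ r)
    (hbad : ∀ S : Finset ℕ, (∀ l ∈ S, l < r ∧ ¬ Gd G l) → S.card ≤ 2 * a) :
    ∃ l₀ < 10 * a + 1, ∃ Q : Finset ℕ, 3 * a + 1 ≤ Q.card ∧ ∀ p ∈ Q, OK G l₀ p := by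
  classical
  obtain ⟨L, hL⟩ : ∃ L, L = 10 * a + 1 := ⟨_, rfl⟩
  rw [← hL] at hr ⊢
  set P := (Ioc L (r - L)).filter Nat.Prime with hP
  have hPc : 6 * a + 2 ≤ P.card := card_primes a (r - L) L ha1 (by omega) (by omega)
  have hPm : ∀ p ∈ P, L < p ∧ L + p ≤ r ∧ p.Prime := by
    intro p hp
    rw [hP, mem_filter, mem_Ioc] at hp
    exact ⟨hp.1.1, by omega, hp.2⟩
  by_contra hcon
  push Not at hcon
  have h1 : ∀ l ∈ range L, (P.filter (fun p => OK G l p)).card ≤ 3 * a := by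
    intro l hl
    rw [mem_range] at hl
    by_contra h2
    push Not at h2
    obtain ⟨p, hp, h3⟩ := hcon l hl _ h2
    exact h3 (mem_filter.1 hp).2
  have h2 : ∀ p ∈ P, 5 * a + 1 ≤ ((range L).filter (fun l => OK G l p)).card := by
    intro p hp
    obtain ⟨h3, h4, h5⟩ := hPm p hp
    have h6 := card_not_OK G hG a (2 * a) p r L ha h5 hbad (by omega) h3.le h4
      ((range L).filter (fun l => ¬ OK G l p)) (by
        intro l hl
        rw [mem_filter, mem_range] at hl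
        exact hl)
    have h7 : ((range L).filter (fun l => OK G l p)).card +
        ((range L).filter (fun l => ¬ OK G l p)).card = L := by
      rw [card_filter_add_card_filter_not, card_range]
    omega
  have h3 : ∑ l ∈ range L, (P.filter (fun p => OK G l p)).card =
      ∑ p ∈ P, ((range L).filter (fun l => OK G l p)).card := by
    simp only [card_filter]
    exact sum_comm
  have h4 : ∑ l ∈ range L, (P.filter (fun p => OK G l p)).card ≤ L * (3 * a) := by
    refine (sum_le_sum h1).trans ?_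
    rw [sum_const, card_range, smul_eq_mul]
  have h5 : P.card * (5 * a + 1) ≤ ∑ p ∈ P, ((range L).filter (fun l => OK G l p)).card := by
    refine le_trans ?_ (sum_le_sum h2)
    rw [sum_const, smul_eq_mul]
  have h6 : (6 * a + 2) * (5 * a + 1) ≤ P.card * (5 * a + 1) := Nat.mul_le_mul_right _ hPc
  rw [hL] at h4 h3
  rw [hL] at h5
  rw [h3] at h4
  nlinarith

theorem linear_roots (G : ℤ[X][X]) (hG : G ≠ 0) (a r : ℕ) (ha1 : 1 ≤ a)
    (hn : G.natDegree ≤ a)
    (ha : ∀ j, (G.coeff j).natDegree ≤ a) (hr : 3844 * a ^ 2 + (10 * a + 1) ≤ r)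
    (hbad : ∀ S : Finset ℕ, (∀ l ∈ S, l < r ∧ ¬ Gd G l) → S.card ≤ 2 * a) :
    ∃ l₀ < r, Gd G l₀ ∧ ∀ i ∈ Zr G l₀, G.eval (C (i : ℤ)) = 0 ∨
      G.eval (X + C ((i : ℤ) - l₀)) = 0 := by
  classical
  obtain ⟨l₀, hl₀, Q, hQ, hOK⟩ := exists_base G hG a r ha1 ha hr hbad
  refine ⟨l₀, by nlinarith, ?_, ?_⟩
  · have : 0 < Q.card := by omega
    obtain ⟨p, hp⟩ := card_pos.1 this
    exact (hOK p hp).1
  intro i hi
  set Q1 := Q.filter (fun p => G.evalEval ((l₀ + p : ℕ) : ℤ) (i : ℤ) = 0) with hQ1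
  set Q2 := Q.filter (fun p => G.evalEval ((l₀ + p : ℕ) : ℤ) ((i + p : ℕ) : ℤ) = 0) with hQ2
  have h1 : Q ⊆ Q1 ∪ Q2 := by
    intro p hp
    rw [mem_union, hQ1, hQ2, mem_filter, mem_filter]
    rcases (hOK p hp).2 i hi with h | h
    · exact Or.inl ⟨hp, h⟩
    · exact Or.inr ⟨hp, h⟩
  have h2 := (card_le_card h1).trans (card_union_le _ _)
  by_cases h3 : a < Q1.card
  · left
    apply eq_zero_of_roots _ a _ (Q1.image fun p => l₀ + p)
    · intro x hx
      obtain ⟨p, hp, rfl⟩ := mem_image.1 hx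
      exact (mem_filter.1 hp).2
    · rwa [card_image_of_injective _ (add_right_injective l₀)]
    · have := natDegree_eval_le G (C (i : ℤ)) a 0 ha (by simp)
      simpa using this
  · right
    apply eq_zero_of_roots _ (2 * a) _ (Q2.image fun p => l₀ + p)
    · intro x hx
      obtain ⟨p, hp, rfl⟩ := mem_image.1 hx
      have h4 := (mem_filter.1 hp).2
      rw [← h4]
      show eval _ (eval _ G) = eval _ (eval _ G)
      apply eval_eval_congr
      simp
      ring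
    · rw [card_image_of_injective _ (add_right_injective l₀)]
      omega
    · have h4 := natDegree_eval_le G (X + C ((i : ℤ) - l₀)) a 1 ha
        (natDegree_X_add_C ((i : ℤ) - l₀)).le
      omega

theorem caseB (G : ℤ[X][X]) (hG : G ≠ 0) (a r M : ℕ) (ha1 : 1 ≤ a)
    (hn : G.natDegree ≤ a)
    (ha : ∀ j, (G.coeff j).natDegree ≤ a) (hr : 3844 * a ^ 2 + (10 * a + 1) ≤ r)
    (hbad : ∀ S : Finset ℕ, (∀ l ∈ S, l < r ∧ ¬ Gd G l) → S.card ≤ 2 * a)
    (hM : ∀ l i : ℕ, l < r → i < r → |G.evalEval (l : ℤ) (i : ℤ)| ≤ M)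
    (K N : ℕ) (hMK : M < K) (hrK : r ≤ K) (hKN : K < N) (hdvd : K ∣ N) :
    G.evalEval (-(K : ℤ)) (-(N : ℤ)) ≠ 0 := by
  classical
  obtain ⟨l₀, hl₀, hgd, hroot⟩ := linear_roots G hG a r ha1 hn ha hr hbad
  have hex : ∀ i : ℕ, ∃ ρ : ℤ[X], i ∈ Zr G l₀ → (G.eval ρ = 0 ∧
      (ρ = C (i : ℤ) ∨ ρ = X + C ((i : ℤ) - l₀))) := by
    intro i
    by_cases hi : i ∈ Zr G l₀
    · rcases hroot i hi with h | h
      · exact ⟨_, fun _ => ⟨h, Or.inl rfl⟩⟩
      · exact ⟨_, fun _ => ⟨h, Or.inr rfl⟩⟩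
    · exact ⟨0, fun h => absurd h hi⟩
  choose ρ hρ using hex
  have hev : ∀ i ∈ Zr G l₀, (ρ i).eval (l₀ : ℤ) = i := by
    intro i hi
    rcases (hρ i hi).2 with h | h
    · rw [h]; simp
    · rw [h]; simp
  have hinj : Set.InjOn ρ (Zr G l₀) := by
    intro i hi j hj hij
    have h1 := hev i hi
    rw [hij, hev j hj] at h1
    exact_mod_cast h1.symm
  have hcard := hgd.form.1
  obtain ⟨-, hform⟩ := prod_form G hG ((Zr G l₀).image ρ) (by
    intro z hz
    obtain ⟨i, hi, rfl⟩ := mem_image.1 hz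
    exact (hρ i hi).1) (by rw [card_image_of_injOn hinj]; exact hcard.ge)
  have hlc : G.leadingCoeff.eval (-(K : ℤ)) ≠ 0 := by
    intro h0
    obtain ⟨i', hi', hi'2⟩ : ∃ i' ∈ range r, i' ∉ Zr G l₀ := by
      apply exists_mem_notMem_of_card_lt_card
      rw [hcard, card_range]
      nlinarith
    have h1 := hgd.eval (i' : ℤ)
    have h2 := hM l₀ i' hl₀ (mem_range.1 hi')
    have h3 : ∏ i ∈ Zr G l₀, ((i' : ℤ) - (i : ℤ)) ≠ 0 := by
      rw [prod_ne_zero_iff]
      intro i hi h4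
      apply hi'2
      have : (i' : ℤ) = i := by linarith
      have h5 : i' = i := by exact_mod_cast this
      rw [h5]; exact hi
    have h4 : |G.leadingCoeff.eval (l₀ : ℤ)| ≤ M := by
      rw [h1, abs_mul] at h2
      have h5 : 1 ≤ |∏ i ∈ Zr G l₀, ((i' : ℤ) - (i : ℤ))| := Int.one_le_abs h3
      have h6 := abs_nonneg (G.leadingCoeff.eval (l₀ : ℤ))
      nlinarith
    have h5 : ((K : ℤ) + l₀) ∣ G.leadingCoeff.eval (l₀ : ℤ) := by
      have h6 := sub_dvd_eval_sub (l₀ : ℤ) (-(K : ℤ)) G.leadingCoeff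
      rw [h0, sub_zero] at h6
      have e : (l₀ : ℤ) - -(K : ℤ) = (K : ℤ) + l₀ := by ring
      rwa [e] at h6
    apply hgd.2
    apply Int.eq_zero_of_abs_lt_dvd h5
    have h6 : (M : ℤ) < K := by exact_mod_cast hMK
    have h7 : (0 : ℤ) ≤ l₀ := by positivity
    linarith
  rw [hform, evalEval_mul, evalEval_C, evalEval_prod]
  apply mul_ne_zero hlc
  rw [prod_ne_zero_iff]
  intro z hz
  obtain ⟨i, hi, rfl⟩ := mem_image.1 hz
  have hKN' : (K : ℤ) < N := by exact_mod_cast hKN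
  have hK0 : (0 : ℤ) ≤ K := by positivity
  rw [evalEval_sub, evalEval_X, evalEval_C]
  rcases (hρ i hi).2 with h | h
  · rw [h, eval_C]
    have : (0 : ℤ) ≤ i := by positivity
    intro h0
    linarith
  · rw [h]
    simp only [eval_add, eval_X, eval_C]
    intro h0
    have h1 : (N : ℤ) = K + (l₀ - i) := by linarith
    have h2 : (K : ℤ) ∣ (l₀ : ℤ) - i := by
      have h3 : (K : ℤ) ∣ (N : ℤ) := Int.natCast_dvd_natCast.2 hdvd
      have h4 : (l₀ : ℤ) - i = N - K := by linarith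
      rw [h4]
      exact dvd_sub h3 (dvd_refl _)
    have h3 : (l₀ : ℤ) - i = 0 := by
      apply Int.eq_zero_of_abs_lt_dvd h2
      have h4 := (mem_Zr.1 hi).1
      have h5 : (i : ℤ) ≤ l₀ := by exact_mod_cast h4
      have h6 : (l₀ : ℤ) < K := by exact_mod_cast (by omega : l₀ < K)
      have h7 : (0 : ℤ) ≤ i := by positivity
      rw [abs_of_nonneg (by linarith)]
      linarith
    rw [h3] at h1
    linarith

end Pool.Agent.H424.SG
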