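import Pool.Agent.H108.St.Taylor

/-!
# Auxiliary polynomials of bounded height
-/

set_option autoImplicit false
open Finset Polynomial

namespace Pool.Agent.H424.SG

open Pool.Agent.H108.St

theorem siegel {α β : Type*} [Fintype α] [Fintype β] (A : Matrix α β ℤ) (b : ℕ) (hb : 1 ≤ b)
    (hA : ∀ i j, |A i j| ≤ b) (hn : Fintype.card α < Fintype.card β)
    (hm : 0 < Fintype.card α) :
    ∃ t : β → ℤ, t ≠ 0 ∧ A.mulVec t = 0 ∧
      ∀ j, |t j| ≤ (((Fintype.card β * b) ^ Fintype.card β : ℕ) : ℤ) := by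
  obtain ⟨t, h0, h1, h2⟩ := Int.Matrix.exists_ne_zero_int_vec_norm_le A hn hm
  refine ⟨t, h0, h1, fun j => ?_⟩
  have h3 : ‖t j‖ ≤ ‖t‖ := norm_le_pi_norm t j
  have hb' : (1 : ℝ) ≤ b := by exact_mod_cast hb
  let _ := Matrix.seminormedAddCommGroup (m := α) (n := β) (α := ℤ)
  have h4 : ‖A‖ ≤ (b : ℝ) := by
    rw [Matrix.norm_le_iff (by positivity)]
    intro i j
    rw [Int.norm_eq_abs]
    exact_mod_cast hA i j
  have h5 : max 1 ‖A‖ ≤ (b : ℝ) := max_le hb' h4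
  have hcard : (1 : ℝ) ≤ Fintype.card β := by
    have : 1 ≤ Fintype.card β := by omega
    exact_mod_cast this
  have h6 : ((Fintype.card β : ℝ) * max 1 ‖A‖) ^ ((Fintype.card α : ℝ) / ((Fintype.card β : ℝ) -
      Fintype.card α)) ≤ ((Fintype.card β : ℝ) * b) ^ (Fintype.card β : ℝ) := by
    have h7 : (1 : ℝ) ≤ (Fintype.card β : ℝ) * b := one_le_mul_of_one_le_of_one_le hcard hb'
    have h8 : (1 : ℝ) ≤ (Fintype.card β : ℝ) - Fintype.card α := by
      have : (Fintype.card α : ℝ) + 1 ≤ Fintype.card β := by exact_mod_cast hn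
      linarith
    have h9 : (Fintype.card α : ℝ) / ((Fintype.card β : ℝ) - Fintype.card α) ≤
        (Fintype.card β : ℝ) := by
      rw [div_le_iff₀ (by linarith)]
      have : (Fintype.card α : ℝ) ≤ Fintype.card β := by exact_mod_cast hn.le
      nlinarith
    calc _ ≤ ((Fintype.card β : ℝ) * b) ^ ((Fintype.card α : ℝ) / ((Fintype.card β : ℝ) -
          Fintype.card α)) := by
          apply Real.rpow_le_rpow
          · positivity
          · exact mul_le_mul_of_nonneg_left h5 (by positivity)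
          · apply div_nonneg (by positivity); linarith
      _ ≤ _ := Real.rpow_le_rpow_of_exponent_le h7 h9
  have h7 := (h3.trans h2).trans h6
  rw [Int.norm_eq_abs, Real.rpow_natCast] at h7
  have h8 : ((|t j| : ℤ) : ℝ) ≤ ((((Fintype.card β * b) ^ Fintype.card β : ℕ) : ℤ) : ℝ) := by
    push_cast
    exact h7
  exact_mod_cast h8

/-- The height bound. -/
def hgt (r a b : ℕ) : ℕ := ((a + 1) * (b + 1) * (2 * r) ^ (a + b)) ^ ((a + 1) * (b + 1))

/-- **Auxiliary polynomials** of bounded height. -/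
theorem exists_aux_height {J : Type} [Fintype J] (l i : J → ℕ) (r : ℕ) (hr : 1 ≤ r)
    (hl : ∀ j, l j ≤ r) (hi : ∀ j, i j ≤ r) (t : J → ℕ) (a b : ℕ)
    (h : ∑ j, ∑ s ∈ range (t j), (s + 1) < (a + 1) * (b + 1)) :
    ∃ f : Fin (a + 1) × Fin (b + 1) → ℤ, f ≠ 0 ∧ (∀ e, |f e| ≤ (hgt r a b : ℤ)) ∧
      ∀ j, ∀ x y d : ℤ, d ∣ x - l j → d ∣ y - i j → d ^ t j ∣ val f x y := by
  classical
  have hh1 : 1 ≤ hgt r a b := by unfold hgt; exact Nat.one_le_pow _ _ (by positivity)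
  let Row := Σ j : J, Σ s : Fin (t j), Fin (s + 1)
  have hcard : Fintype.card Row = ∑ j, ∑ s ∈ range (t j), (s + 1) := by
    simp only [Row, Fintype.card_sigma, Fintype.card_fin]
    apply Finset.sum_congr rfl
    intro j _
    exact Fin.sum_univ_eq_sum_range (fun s => s + 1) (t j)
  rcases Nat.eq_zero_or_pos (Fintype.card Row) with h0 | h0
  · refine ⟨Pi.single 0 1, by simp, ?_, ?_⟩
    · intro e
      by_cases he : e = 0
      · subst he; rw [Pi.single_eq_same, abs_one]; exact_mod_cast hh1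
      · rw [Pi.single_eq_of_ne he, abs_zero]; positivity
    intro j x y d _ _
    have h1 : t j = 0 := by
      by_contra hne
      have : IsEmpty Row := Fintype.card_eq_zero_iff.1 h0
      exact this.elim ⟨j, ⟨0, Nat.pos_of_ne_zero hne⟩, 0⟩
    rw [h1, pow_zero]
    exact one_dvd _
  let A : Matrix Row (Fin (a + 1) × Fin (b + 1)) ℤ := fun ρ e =>
    (l ρ.1 : ℤ) ^ ((e.1 : ℕ) - (ρ.2.2 : ℕ)) * ((e.1 : ℕ).choose (ρ.2.2 : ℕ) : ℤ) *
      ((i ρ.1 : ℤ) ^ ((e.2 : ℕ) - ((ρ.2.1 : ℕ) - (ρ.2.2 : ℕ))) *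
        ((e.2 : ℕ).choose ((ρ.2.1 : ℕ) - (ρ.2.2 : ℕ)) : ℤ))
  have hAb : ∀ ρ e, |A ρ e| ≤ (((2 * r) ^ (a + b) : ℕ) : ℤ) := by
    intro ρ e
    have e1 : A ρ e = ((l ρ.1 ^ ((e.1 : ℕ) - (ρ.2.2 : ℕ)) * ((e.1 : ℕ).choose (ρ.2.2 : ℕ)) *
      (i ρ.1 ^ ((e.2 : ℕ) - ((ρ.2.1 : ℕ) - (ρ.2.2 : ℕ))) *
        ((e.2 : ℕ).choose ((ρ.2.1 : ℕ) - (ρ.2.2 : ℕ)))) : ℕ) : ℤ) := by
      simp only [A]; push_cast; ring
    rw [e1, Nat.abs_cast]
    norm_cast
    have he1 := Nat.lt_succ_iff.1 e.1.2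
    have he2 := Nat.lt_succ_iff.1 e.2.2
    have key : ∀ (u c m k k' : ℕ), u ≤ r → m ≤ c → u ^ (m - k) * m.choose k' ≤ (2 * r) ^ c := by
      intro u c m k k' hu hm
      calc u ^ (m - k) * m.choose k' ≤ r ^ m * 2 ^ m := by
            apply Nat.mul_le_mul
            · exact (Nat.pow_le_pow_left hu _).trans (Nat.pow_le_pow_right hr (Nat.sub_le _ _))
            · exact Nat.choose_le_two_pow _ _
        _ = (2 * r) ^ m := by rw [mul_pow, mul_comm]
        _ ≤ (2 * r) ^ c := Nat.pow_le_pow_right (by omega) hm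
    rw [pow_add]
    exact Nat.mul_le_mul (key _ _ _ _ _ (hl _) he1) (key _ _ _ _ _ (hi _) he2)
  obtain ⟨f, hf0, hf, hfb⟩ := siegel A ((2 * r) ^ (a + b)) (Nat.one_le_pow _ _ (by omega)) hAb (by
    rw [hcard, Fintype.card_prod, Fintype.card_fin, Fintype.card_fin]; exact h) h0
  rw [Fintype.card_prod, Fintype.card_fin, Fintype.card_fin] at hfb
  refine ⟨f, hf0, hfb, ?_⟩
  intro j x y d hx hy
  apply pow_dvd_val f (l j) (i j) (t j) _ x y d hx hy
  intro α β hαβ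
  have h1 := congrFun hf ⟨j, ⟨α + β, hαβ⟩, ⟨α, by simp⟩⟩
  simp only [Matrix.mulVec, dotProduct, A, Pi.zero_apply] at h1
  rw [← h1]
  unfold tay
  apply Finset.sum_congr rfl
  intro e _
  simp

theorem sum_abs_le {a b : ℕ} (f : Fin (a + 1) × Fin (b + 1) → ℤ) (B : ℕ) (hf : ∀ e, |f e| ≤ (B : ℤ)) :
    ∑ e, |f e| ≤ (((a + 1) * (b + 1) * B : ℕ) : ℤ) := by
  calc ∑ e, |f e| ≤ ∑ _e : Fin (a + 1) × Fin (b + 1), (B : ℤ) := sum_le_sum fun e _ => hf e
    _ = _ := by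
        rw [sum_const, card_univ, Fintype.card_prod, Fintype.card_fin, Fintype.card_fin,
          nsmul_eq_mul]
        push_cast; ring

end Pool.Agent.H424.SG
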