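import Pool.Agent.H424.SG.CaseB
import Pool.Agent.H424.SG.Siegel
import Pool.Agent.H108.St.Num

/-!
# The descent: no polynomial of small degree and height vanishes at a large solution
-/

set_option autoImplicit false
open Finset Polynomial

namespace Pool.Agent.H424.SG

open Pool.Agent.H108.St

/-- The common divisors. -/
def gd (K N l i : ℕ) : ℕ := Nat.gcd (K + l) (N + i)

theorem gcd_gd (K N r l i l' i' : ℕ) (hl : l < r) (hi : i < r) (hl' : l' < r) (hi' : i' < r)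
    (h : l ≠ l' ∨ i ≠ i') : Nat.gcd (gd K N l i) (gd K N l' i') ∣ r.factorial := by
  have key : ∀ a b M : ℕ, a < r → b < r → a ≠ b → ∀ g : ℕ, g ∣ M + a → g ∣ M + b →
      g ∣ r.factorial := by
    intro a b M ha hb hab g h1 h2
    wlog hlt : a < b generalizing a b
    · exact this b a hb ha (Ne.symm hab) h2 h1 (by omega)
    have h3 : g ∣ b - a := by
      have := (Nat.dvd_sub h2 h1)
      rwa [show M + b - (M + a) = b - a by omega] at this
    exact h3.trans (Nat.dvd_factorial (by omega) (by omega))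
  have g1 : Nat.gcd (gd K N l i) (gd K N l' i') ∣ K + l :=
    (Nat.gcd_dvd_left _ _).trans (Nat.gcd_dvd_left _ _)
  have g2 : Nat.gcd (gd K N l i) (gd K N l' i') ∣ K + l' :=
    (Nat.gcd_dvd_right _ _).trans (Nat.gcd_dvd_left _ _)
  have g3 : Nat.gcd (gd K N l i) (gd K N l' i') ∣ N + i :=
    (Nat.gcd_dvd_left _ _).trans (Nat.gcd_dvd_right _ _)
  have g4 : Nat.gcd (gd K N l i) (gd K N l' i') ∣ N + i' :=
    (Nat.gcd_dvd_right _ _).trans (Nat.gcd_dvd_right _ _)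
  rcases h with h | h
  · exact key _ _ K hl hl' h _ g1 g2
  · exact key _ _ N hi hi' h _ g3 g4

/-- `gd` divides the difference of the values. -/
theorem gd_dvd (G : ℤ[X][X]) (K N l i : ℕ) :
    ((gd K N l i : ℕ) : ℤ) ∣ G.evalEval (l : ℤ) (i : ℤ) - G.evalEval (-(K : ℤ)) (-(N : ℤ)) := by
  apply evalEval_congr
  · have : ((gd K N l i : ℕ) : ℤ) ∣ ((K + l : ℕ) : ℤ) :=
      Int.natCast_dvd_natCast.2 (Nat.gcd_dvd_left _ _)
    have e : (l : ℤ) - -(K : ℤ) = ((K + l : ℕ) : ℤ) := by push_cast; ring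
    rw [e]; exact this
  · have : ((gd K N l i : ℕ) : ℤ) ∣ ((N + i : ℕ) : ℤ) :=
      Int.natCast_dvd_natCast.2 (Nat.gcd_dvd_right _ _)
    have e : (i : ℤ) - -(N : ℤ) = ((N + i : ℕ) : ℤ) := by push_cast; ring
    rw [e]; exact this

/-- The column lemma. -/
theorem col_le (G : ℤ[X][X]) (r M K N l : ℕ) (hM1 : 1 ≤ M) (hl : l < r) (hK : 0 < K)
    (hD : Dv r K N) (h0 : G.evalEval (-(K : ℤ)) (-(N : ℤ)) = 0)
    (hM : ∀ i : ℕ, i < r → |G.evalEval (l : ℤ) (i : ℤ)| ≤ M) :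
    K ≤ M ^ r * ∏ i ∈ Zr G l, gd K N l i := by
  classical
  have h1 := hD.col hl
  have h2 : ∏ i ∈ range (l + 1), Nat.gcd (K + l) (N + i) =
      (∏ i ∈ Zr G l, gd K N l i) *
        ∏ i ∈ (range (l + 1)).filter (fun i : ℕ => ¬ G.evalEval (l : ℤ) (i : ℤ) = 0), gd K N l i :=
    (prod_filter_mul_prod_filter_not (range (l + 1))
      (fun i : ℕ => G.evalEval (l : ℤ) (i : ℤ) = 0) (fun i => gd K N l i)).symm
  have h3 : ∏ i ∈ (range (l + 1)).filter (fun i : ℕ => ¬ G.evalEval (l : ℤ) (i : ℤ) = 0),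
      gd K N l i ≤ M ^ r := by
    calc _ ≤ ∏ _i ∈ (range (l + 1)).filter (fun i : ℕ => ¬ G.evalEval (l : ℤ) (i : ℤ) = 0), M := by
          apply prod_le_prod' 
          intro i hi
          rw [mem_filter, mem_range] at hi
          have h4 := gd_dvd G K N l i
          rw [h0, sub_zero] at h4
          have h5 := Int.natCast_dvd.1 h4
          have h6 := Nat.le_of_dvd (Int.natAbs_pos.2 hi.2) h5
          have h7 := hM i (by omega)
          rw [Int.abs_eq_natAbs] at h7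
          have h8 : (G.evalEval (l : ℤ) (i : ℤ)).natAbs ≤ M := by exact_mod_cast h7
          exact h6.trans h8
      _ = M ^ ((range (l + 1)).filter (fun i : ℕ => ¬ G.evalEval (l : ℤ) (i : ℤ) = 0)).card := by
          rw [prod_const]
      _ ≤ M ^ r := by
          apply Nat.pow_le_pow_right hM1
          refine (card_filter_le _ _).trans ?_
          rw [card_range]; omega
  have h4 : 0 < ∏ i ∈ range (l + 1), Nat.gcd (K + l) (N + i) := by
    apply prod_pos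
    intro i _
    exact Nat.gcd_pos_of_pos_left _ (by omega)
  have h5 := Nat.le_of_dvd h4 h1
  rw [h2] at h5
  calc K ≤ K + l := Nat.le_add_right _ _
    _ ≤ _ := h5
    _ ≤ (∏ i ∈ Zr G l, gd K N l i) * M ^ r := Nat.mul_le_mul_left _ h3
    _ = _ := mul_comm _ _

/-- The bound for the values. -/
def MM (r a : ℕ) : ℕ := ((a + 1) ^ 2 * (2 * r) ^ (2 * a)) ^ ((a + 1) ^ 2 + 1)

theorem MM_pos (r a : ℕ) (hr : 1 ≤ r) : 1 ≤ MM r a := by
  unfold MM
  exact Nat.one_le_pow _ _ (by positivity)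

theorem MM_ge (r a a' b' : ℕ) (hr : 1 ≤ r) (ha : a' ≤ a) (hb : b' ≤ a) :
    (a' + 1) * (b' + 1) * hgt r a' b' * r ^ (a' + b') ≤ MM r a := by
  have h1 : (a' + 1) * (b' + 1) ≤ (a + 1) ^ 2 := by
    rw [sq]; exact Nat.mul_le_mul (by omega) (by omega)
  have h2 : (2 * r) ^ (a' + b') ≤ (2 * r) ^ (2 * a) := Nat.pow_le_pow_right (by omega) (by omega)
  have h3 : r ^ (a' + b') ≤ (2 * r) ^ (2 * a) :=
    (Nat.pow_le_pow_left (by omega) _).trans h2
  have h4 : 1 ≤ (a + 1) ^ 2 * (2 * r) ^ (2 * a) := Nat.one_le_iff_ne_zero.2 (by positivity)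
  have h5 : hgt r a' b' ≤ ((a + 1) ^ 2 * (2 * r) ^ (2 * a)) ^ ((a + 1) ^ 2) := by
    unfold hgt
    exact (Nat.pow_le_pow_left (Nat.mul_le_mul h1 h2) _).trans (Nat.pow_le_pow_right h4 h1)
  unfold MM
  calc (a' + 1) * (b' + 1) * hgt r a' b' * r ^ (a' + b') ≤
      (a + 1) ^ 2 * ((a + 1) ^ 2 * (2 * r) ^ (2 * a)) ^ ((a + 1) ^ 2) * (2 * r) ^ (2 * a) :=
        Nat.mul_le_mul (Nat.mul_le_mul h1 h5) h3
    _ = _ := by rw [pow_succ ((a + 1) ^ 2 * (2 * r) ^ (2 * a))]; ring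

theorem caseA (A a r n K N : ℕ) (hA : 1 ≤ A) (hAn : A * (n + 1) ^ 2 ≤ a)
    (hr : a * (a + 1) + a + 1 ≤ r) (G : ℤ[X][X]) (Λ : Finset ℕ)
    (hΛ : Λ.card = A * (n + 1) ^ 2 + 1) (hΛr : ∀ l ∈ Λ, l < r)
    (hZ : ∀ l ∈ Λ, (Zr G l).card ≤ n)
    (hK : MM r a ^ (r ^ 2 + 1) * r.factorial ^ (r ^ 2) < K) (hNK : N ≤ K ^ A) (hN : 0 < N)
    (hcol : ∀ l ∈ Λ, K ≤ MM r a ^ r * ∏ i ∈ Zr G l, gd K N l i)
    (IH : ∀ H : ℤ[X][X], H ≠ 0 → H.natDegree ≤ n → (∀ j, (H.coeff j).natDegree ≤ a) →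
      (∀ l i : ℕ, l < r → i < r → |H.evalEval (l : ℤ) (i : ℤ)| ≤ MM r a) →
      H.evalEval (-(K : ℤ)) (-(N : ℤ)) ≠ 0) : False := by
  classical
  have hr1 : 1 ≤ r := by omega
  have hMM := MM_pos r a hr1
  have hK0 : 0 < K := by omega
  set Q : Finset (Σ _ : ℕ, ℕ) := Λ.sigma fun l => Zr G l with hQ
  have hQm : ∀ x ∈ Q, x.1 < r ∧ x.2 < r := by
    intro x hx
    rw [hQ, mem_sigma] at hx
    have h1 := hΛr x.1 hx.1
    have h2 := (mem_Zr.1 hx.2).1
    exact ⟨h1, by omega⟩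
  have hQc : Q.card ≤ (A * (n + 1) ^ 2 + 1) * n := by
    rw [hQ, card_sigma, ← hΛ]
    refine (sum_le_sum hZ).trans ?_
    rw [sum_const, smul_eq_mul]
  have hna : n ≤ a := by nlinarith
  have hQr : Q.card ≤ r := by
    refine hQc.trans ?_
    nlinarith
  have he : A * (n + 1) * n ≤ a := by nlinarith
  obtain ⟨f, hf0, hfh, hf⟩ := exists_aux_height (J := {x // x ∈ Q}) (fun x => x.1.1)
    (fun x => x.1.2) r hr1 (fun x => (hQm x.1 x.2).1.le) (fun x => (hQm x.1 x.2).2.le)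
    (fun _ => 1) (A * (n + 1) * n) n (by
      simp only [range_one, sum_singleton, zero_add, sum_const, card_univ, Fintype.card_coe,
        smul_eq_mul, mul_one]
      refine lt_of_le_of_lt hQc ?_
      nlinarith)
  set H := pol f with hH
  have hsum := sum_abs_le f _ hfh
  have hHgrid : ∀ l i : ℕ, l < r → i < r → |H.evalEval (l : ℤ) (i : ℤ)| ≤ MM r a := by
    intro l i hl hi
    rw [hH, evalEval_pol]
    refine (abs_val_le' f (l : ℤ) (i : ℤ) r r (by
      rw [Nat.abs_cast]; exact_mod_cast hl.le) (by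
      rw [Nat.abs_cast]; exact_mod_cast hi.le) (by exact_mod_cast hr1) (by exact_mod_cast hr1)).trans ?_
    refine (mul_le_mul_of_nonneg_right hsum (by positivity)).trans ?_
    rw [← pow_add]
    exact_mod_cast MM_ge r a (A * (n + 1) * n) n hr1 he hna
  have hHne := IH H (pol_ne_zero f hf0) (natDegree_pol f)
    (fun j => (coeff_coeff_pol f j).trans he) hHgrid
  rw [hH, evalEval_pol] at hHne
  set V := (H108.St.val f (-(K : ℤ)) (-(N : ℤ))).natAbs with hV
  have hVpos : 0 < V := Int.natAbs_pos.2 hHne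
  have hdvd : ∀ x ∈ Q, gd K N x.1 x.2 ∣ V := by
    intro x hx
    have h1 := hf ⟨x, hx⟩ (-(K : ℤ)) (-(N : ℤ)) (gd K N x.1 x.2) (by
      have : ((gd K N x.1 x.2 : ℕ) : ℤ) ∣ ((K + x.1 : ℕ) : ℤ) :=
        Int.natCast_dvd_natCast.2 (Nat.gcd_dvd_left _ _)
      have e : -(K : ℤ) - (x.1 : ℤ) = -((K + x.1 : ℕ) : ℤ) := by push_cast; ring
      rw [e]; exact (dvd_neg).2 this) (by
      have : ((gd K N x.1 x.2 : ℕ) : ℤ) ∣ ((N + x.2 : ℕ) : ℤ) :=
        Int.natCast_dvd_natCast.2 (Nat.gcd_dvd_right _ _)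
      have e : -(N : ℤ) - (x.2 : ℤ) = -((N + x.2 : ℕ) : ℤ) := by push_cast; ring
      rw [e]; exact (dvd_neg).2 this)
    rw [pow_one] at h1
    exact Int.natCast_dvd.1 h1
  have hprod := prod_dvd_of_gcd Q (fun x => gd K N x.1 x.2) V r.factorial hdvd (by
    intro x hx y hy hxy
    obtain ⟨h1, h2⟩ := hQm x hx
    obtain ⟨h3, h4⟩ := hQm y hy
    apply gcd_gd K N r x.1 x.2 y.1 y.2 h1 h2 h3 h4
    by_contra hcon
    push Not at hcon
    exact hxy (Sigma.ext hcon.1 (heq_of_eq hcon.2)))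
  have hfac : 0 < r.factorial := Nat.factorial_pos r
  have hle := Nat.le_of_dvd (Nat.mul_pos hVpos (pow_pos hfac _)) hprod
  have hle2 : ∏ x ∈ Q, gd K N x.1 x.2 ≤ V * r.factorial ^ (r ^ 2) :=
    hle.trans (Nat.mul_le_mul_left _ (Nat.pow_le_pow_right hfac (Nat.pow_le_pow_left hQr 2)))
  have hVle : V ≤ MM r a * K ^ (A * (n + 1) * n + A * n) := by
    have h1 := abs_val_le' f (-(K : ℤ)) (-(N : ℤ)) K N (by simp) (by simp)
      (by exact_mod_cast hK0) (by exact_mod_cast hN)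
    rw [Int.abs_eq_natAbs, ← hV] at h1
    have h2 : (V : ℤ) ≤ (((A * (n + 1) * n + 1) * (n + 1) * hgt r (A * (n + 1) * n) n : ℕ) : ℤ) *
        ((K : ℤ) ^ (A * (n + 1) * n) * (N : ℤ) ^ n) :=
      h1.trans (mul_le_mul_of_nonneg_right hsum (by positivity))
    have h3 : V ≤ ((A * (n + 1) * n + 1) * (n + 1) * hgt r (A * (n + 1) * n) n) *
        (K ^ (A * (n + 1) * n) * N ^ n) := by exact_mod_cast h2
    refine h3.trans (Nat.mul_le_mul ?_ ?_)
    · refine le_trans ?_ (MM_ge r a (A * (n + 1) * n) n hr1 he hna)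
      exact Nat.le_mul_of_pos_right _ (by positivity)
    · rw [pow_add, pow_mul K A n]
      exact Nat.mul_le_mul_left _ (Nat.pow_le_pow_left hNK n)
  have hlow : K ^ (A * (n + 1) ^ 2 + 1) ≤ MM r a ^ (r ^ 2) * ∏ x ∈ Q, gd K N x.1 x.2 := by
    calc K ^ (A * (n + 1) ^ 2 + 1) = ∏ _l ∈ Λ, K := by rw [prod_const, hΛ]
      _ ≤ ∏ l ∈ Λ, (MM r a ^ r * ∏ i ∈ Zr G l, gd K N l i) := prod_le_prod' hcol
      _ = (MM r a ^ r) ^ (A * (n + 1) ^ 2 + 1) * ∏ x ∈ Q, gd K N x.1 x.2 := by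
          rw [prod_mul_distrib, prod_const, hΛ, hQ, prod_sigma]
      _ ≤ _ := by
          apply Nat.mul_le_mul_right
          rw [← pow_mul]
          apply Nat.pow_le_pow_right hMM
          have h1 : A * (n + 1) ^ 2 + 1 ≤ r := by nlinarith
          calc r * (A * (n + 1) ^ 2 + 1) ≤ r * r := Nat.mul_le_mul_left _ h1
            _ = r ^ 2 := (sq r).symm
  have hfin : K ^ (A * (n + 1) ^ 2 + 1) < K ^ (A * (n + 1) * n + A * n + 1) := by
    calc K ^ (A * (n + 1) ^ 2 + 1) ≤ MM r a ^ (r ^ 2) * ∏ x ∈ Q, gd K N x.1 x.2 := hlow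
      _ ≤ MM r a ^ (r ^ 2) * (MM r a * K ^ (A * (n + 1) * n + A * n) * r.factorial ^ (r ^ 2)) :=
          Nat.mul_le_mul_left _ (hle2.trans (Nat.mul_le_mul_right _ hVle))
      _ = (MM r a ^ (r ^ 2 + 1) * r.factorial ^ (r ^ 2)) * K ^ (A * (n + 1) * n + A * n) := by
          rw [pow_succ (MM r a)]; ring
      _ < K * K ^ (A * (n + 1) * n + A * n) :=
          Nat.mul_lt_mul_of_pos_right hK (pow_pos hK0 _)
      _ = K ^ (A * (n + 1) * n + A * n + 1) := by rw [pow_succ]; ring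
  have hlt := (Nat.pow_lt_pow_iff_right (show 1 < K by
    have : 1 ≤ MM r a ^ (r ^ 2 + 1) * r.factorial ^ (r ^ 2) :=
      Nat.one_le_iff_ne_zero.2 (by positivity)
    omega)).1 hfin
  nlinarith

/-- **The descent.** -/
theorem descent (A a r K N : ℕ) (hA : 1 ≤ A) (ha1 : 1 ≤ a)
    (hr : 3844 * a ^ 2 + (10 * a + 1) ≤ r)
    (hK : MM r a ^ (r ^ 2 + 1) * r.factorial ^ (r ^ 2) < K) (hrK : r ≤ K) (hKN : K < N)
    (hNK : N ≤ K ^ A) (hD : Dv r K N) (n : ℕ) (hAn : A * n ^ 2 ≤ a) :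
    ∀ G : ℤ[X][X], G ≠ 0 → G.natDegree ≤ n → (∀ j, (G.coeff j).natDegree ≤ a) →
      (∀ l i : ℕ, l < r → i < r → |G.evalEval (l : ℤ) (i : ℤ)| ≤ MM r a) →
      G.evalEval (-(K : ℤ)) (-(N : ℤ)) ≠ 0 := by
  classical
  have hr1 : 1 ≤ r := by omega
  have hMM := MM_pos r a hr1
  have hfac : 1 ≤ r.factorial := Nat.factorial_pos r
  have hMK : MM r a ^ r < K := by
    refine lt_of_le_of_lt ?_ hK
    calc MM r a ^ r ≤ MM r a ^ (r ^ 2 + 1) := Nat.pow_le_pow_right hMM (by nlinarith)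
      _ ≤ _ := Nat.le_mul_of_pos_right _ (by positivity)
  have hMK1 : MM r a < K := by
    refine lt_of_le_of_lt ?_ hMK
    exact Nat.le_self_pow (by omega) _
  have hK0 : 0 < K := by omega
  induction n with
  | zero =>
    intro G hG hn ha hM h0
    obtain ⟨g, rfl⟩ : ∃ g : ℤ[X], G = C g := ⟨_, eq_C_of_natDegree_eq_zero (by omega)⟩
    have hg : g ≠ 0 := by rintro rfl; simp at hG
    have hgd : g.natDegree ≤ a := by
      have := ha 0
      rwa [coeff_C_zero] at this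
    obtain ⟨l, hl, hl0⟩ : ∃ l < r, g.eval (l : ℤ) ≠ 0 := by
      by_contra hcon
      push Not at hcon
      apply hg
      apply eq_zero_of_roots g a hgd (range r)
      · intro x hx
        exact hcon x (mem_range.1 hx)
      · rw [card_range]; nlinarith
    have h1 := col_le (C g) r (MM r a) K N l hMM hl hK0 hD h0 (fun i hi => hM l i hl hi)
    have h2 : Zr (C g) l = ∅ := by
      rw [eq_empty_iff_forall_notMem]
      intro i hi
      have := (mem_Zr.1 hi).2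
      rw [evalEval_C] at this
      exact hl0 this
    rw [h2, prod_empty, mul_one] at h1
    omega
  | succ n ih =>
    have ih' := ih (le_trans (Nat.mul_le_mul_left _ (Nat.pow_le_pow_left (Nat.le_succ n) 2)) hAn)
    intro G hG hn ha hM h0
    rcases Nat.lt_or_ge G.natDegree (n + 1) with h1 | h1
    · exact ih' G hG (by omega) ha hM h0
    have hnd : G.natDegree = n + 1 := le_antisymm hn h1
    by_cases hB : ∀ S : Finset ℕ, (∀ l ∈ S, l < r ∧ ¬ Gd G l) → S.card ≤ 2 * a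
    · refine caseB G hG a r (MM r a) ha1 ?_ ha hr hB hM K N hMK1 hrK hKN ?_ h0
      · rw [hnd]
        nlinarith
      · have := hD 1 (by omega)
        simpa using this
    push Not at hB
    obtain ⟨S, hS, hSc⟩ := hB
    have h2 : S ⊆ S.filter (fun l : ℕ => (Zr G l).card < n + 1) ∪
        S.filter (fun l : ℕ => G.leadingCoeff.eval (l : ℤ) = 0) := by
      intro l hl
      rw [mem_union, mem_filter, mem_filter]
      by_contra hcon
      push Not at hcon
      exact (hS l hl).2 ⟨by rw [hnd]; exact hcon.1 hl, hcon.2 hl⟩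
    have h3 : (S.filter (fun l : ℕ => G.leadingCoeff.eval (l : ℤ) = 0)).card ≤ a := by
      by_contra hcon
      push Not at hcon
      have h4 := eq_zero_of_roots G.leadingCoeff a (ha _)
        (S.filter (fun l : ℕ => G.leadingCoeff.eval (l : ℤ) = 0)) (by
          intro x hx
          exact (mem_filter.1 hx).2) hcon
      exact hG (leadingCoeff_eq_zero.1 h4)
    have h4 := (card_le_card h2).trans (card_union_le _ _)
    obtain ⟨Λ, hΛ, hΛc⟩ := exists_subset_card_eq (show A * (n + 1) ^ 2 + 1 ≤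
      (S.filter (fun l : ℕ => (Zr G l).card < n + 1)).card by omega)
    have hΛr : ∀ l ∈ Λ, l < r := fun l hl => (hS l (mem_filter.1 (hΛ hl)).1).1
    refine caseA A a r n K N hA hAn (by nlinarith) G Λ hΛc hΛr (fun l hl => by
      have := (mem_filter.1 (hΛ hl)).2
      omega) hK hNK (by omega) ?_ ih'
    intro l hl
    exact col_le G r (MM r a) K N l hMM (hΛr l hl) hK0 hD h0 (fun i hi => hM l i (hΛr l hl) hi)

end Pool.Agent.H424.SG
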