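import Pool.Agent.H424.SG.Descent

/-!
# The engine with explicit constants

This is the argument of `Pool.Agent.H108.St.Main` (helper108) with the explicit descent in the place
of Hilbert's irreducibility theorem.
-/

set_option autoImplicit false
open Finset Polynomial

namespace Pool.Agent.H424.SG

open Pool.Agent.H108.St

/-- The points `(l, i)`, `i ≤ l < R`. -/
abbrev Pt (R : ℕ) := Σ l : Fin R, Fin ((l : ℕ) + 1)

theorem card_Pt (R : ℕ) : Fintype.card (Pt R) ≤ R ^ 2 := by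
  rw [Fintype.card_sigma]
  simp only [Fintype.card_fin]
  calc ∑ l : Fin R, ((l : ℕ) + 1) ≤ ∑ _l : Fin R, R := sum_le_sum fun l _ => l.2
    _ = R ^ 2 := by rw [sum_const, card_univ, Fintype.card_fin, smul_eq_mul, sq]

theorem gcd_pow_dvd (a b m s t c : ℕ) (hs : s ≤ m) (ht : t ≤ m) (h : Nat.gcd a b ∣ c) :
    Nat.gcd (a ^ s) (b ^ t) ∣ c ^ m := by
  have h1 : Nat.gcd (a ^ s) (b ^ t) ∣ Nat.gcd (a ^ m) (b ^ m) :=
    Nat.gcd_dvd_gcd_of_dvd_left _ (pow_dvd_pow _ hs) |>.trans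
      (Nat.gcd_dvd_gcd_of_dvd_right _ (pow_dvd_pow _ ht))
  rw [Nat.pow_gcd_pow] at h1
  exact h1.trans (pow_dvd_pow_of_dvd h m)

theorem deg_le (A R T P : ℕ) (hP : P ≤ R ^ 2) (hT : T ≤ 300 * R ^ 2) (hR : 1 ≤ R)
    (hT1 : 1 ≤ T) {J : Type} [Fintype J] (hJ : Fintype.card J = P) (t : J → ℕ)
    (ht : ∀ j, t j ≤ 2 * T) : deg A t ≤ 601 * R ^ 3 := by
  have h1 : 2 * cond t ≤ P * (2 * T * (2 * T + 1)) := by
    rw [two_mul_cond, ← hJ, ← card_univ (α := J), ← smul_eq_mul (card univ), ← sum_const]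
    apply sum_le_sum
    intro j _
    exact Nat.mul_le_mul (ht j) (Nat.succ_le_succ (ht j))
  have h2 : cond t ≤ (2 * R * T) * (2 * R * T) := by
    have h3 : P * (2 * T * (2 * T + 1)) ≤ R ^ 2 * (2 * T * (2 * T + 1)) :=
      Nat.mul_le_mul_right _ hP
    have h4 : R ^ 2 * (2 * T * (2 * T + 1)) ≤ 2 * ((2 * R * T) * (2 * R * T)) := by
      have : 2 * T * (2 * T + 1) ≤ 8 * T ^ 2 := by nlinarith
      calc R ^ 2 * (2 * T * (2 * T + 1)) ≤ R ^ 2 * (8 * T ^ 2) := Nat.mul_le_mul_left _ this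
        _ = _ := by ring
    omega
  have h3 : Nat.sqrt (cond t / A) ≤ 2 * R * T := by
    calc Nat.sqrt (cond t / A) ≤ Nat.sqrt (2 * R * T * (2 * R * T)) :=
          Nat.sqrt_le_sqrt ((Nat.div_le_self _ _).trans h2)
      _ = 2 * R * T := Nat.sqrt_eq _
  unfold deg
  have h4 : 2 * R * T ≤ 600 * R ^ 3 := by
    calc 2 * R * T ≤ 2 * R * (300 * R ^ 2) := Nat.mul_le_mul_left _ hT
      _ = 600 * R ^ 3 := by ring
  have h5 : 1 ≤ R ^ 3 := Nat.one_le_pow _ _ hR
  omega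

/-- The engine: explicit form. -/
theorem main_arith (A R a r K N : ℕ) (hA : 1 ≤ A)
    (hR : 8 * (A : ℝ) ≤ ∑ l ∈ range R, 1 / ((l : ℝ) + 1)) (ha : a = A * (601 * R ^ 3) ^ 2)
    (hr : 3844 * a ^ 2 + (10 * a + 1) ≤ r)
    (hK : MM r a ^ (r ^ 2 + 1) * r.factorial ^ (r ^ 2) < K) (hrK : r + 2 ≤ K) (hKN : K < N)
    (hNK : N ≤ K ^ A) : ¬ Dv r K N := by
  classical
  intro hD
  have hAr : (1 : ℝ) ≤ A := by exact_mod_cast hA
  have hAR : 8 * A ≤ R := by
    have h1 : ∑ l ∈ range R, 1 / ((l : ℝ) + 1) ≤ ∑ _l ∈ range R, (1 : ℝ) := by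
      apply sum_le_sum
      intro l _
      rw [div_le_one (by positivity)]
      have : (0 : ℝ) ≤ l := by positivity
      linarith
    rw [sum_const, card_range, nsmul_eq_mul, mul_one] at h1
    have h2 := hR.trans h1
    exact_mod_cast h2
  have hR1 : 1 ≤ R := by omega
  set P := Fintype.card (Pt R) with hP
  have hPR : P ≤ R ^ 2 := card_Pt R
  set T := 100 * (P + A + 1) with hT
  have hT300 : T ≤ 300 * R ^ 2 := by
    rw [hT]
    nlinarith
  have hT1 : 1 ≤ T := by omega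
  have hR31 : 1 ≤ R ^ 3 := Nat.one_le_pow _ _ hR1
  have ha1 : 1 ≤ a := by
    rw [ha]
    exact Nat.one_le_iff_ne_zero.2 (by positivity)
  have hRa : 600 * R ^ 6 ≤ a := by
    rw [ha]
    have h1 : 600 * R ^ 6 ≤ (601 * R ^ 3) ^ 2 := by
      have : (601 * R ^ 3) ^ 2 = 361201 * R ^ 6 := by ring
      omega
    exact h1.trans (Nat.le_mul_of_pos_left _ (by omega))
  have har : a ≤ r := by nlinarith
  have hR6 : R ≤ R ^ 6 := Nat.le_self_pow (by norm_num) R
  have hRr : R + 2 ≤ r := by omega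
  have hr1 : 1 ≤ r := by omega
  have hK1 : 1 < K := by omega
  have hKr : (1 : ℝ) < K := by exact_mod_cast hK1
  have hL : 0 < Real.log K := Real.log_pos hKr
  -- the weights
  set w : Pt R → ℝ := fun j => Real.log (gd K N j.1 j.2) / Real.log K with hw
  have hdpos : ∀ j : Pt R, 0 < gd K N j.1 j.2 := fun j => Nat.gcd_pos_of_pos_left _ (by omega)
  have hw0 : ∀ j, 0 ≤ w j := fun j =>
    div_nonneg (Real.log_nonneg (by exact_mod_cast hdpos j)) hL.le
  have hw2 : ∀ j, w j ≤ 2 := by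
    intro j
    simp only [hw]
    rw [div_le_iff₀ hL, show 2 * Real.log K = Real.log ((K : ℝ) ^ 2) by
      rw [Real.log_pow]; push_cast; ring]
    apply Real.log_le_log (by exact_mod_cast hdpos j)
    have h1 : gd K N j.1 j.2 ≤ K + (j.1 : ℕ) := Nat.le_of_dvd (by omega) (Nat.gcd_dvd_left _ _)
    have h2 := j.1.2
    have h3 : gd K N j.1 j.2 ≤ K ^ 2 := by nlinarith
    exact_mod_cast h3
  have hcol : ∀ l : Fin R, 1 ≤ ∑ i : Fin ((l : ℕ) + 1), w ⟨l, i⟩ := by
    intro l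
    have h1 := hD.col (show (l : ℕ) < r by have := l.2; omega)
    have h2 : K ≤ ∏ i ∈ range ((l : ℕ) + 1), Nat.gcd (K + l) (N + i) := by
      refine le_trans (by omega : K ≤ K + l) (Nat.le_of_dvd ?_ h1)
      apply prod_pos
      intro i _
      exact Nat.gcd_pos_of_pos_left _ (by omega)
    rw [← Fin.prod_univ_eq_prod_range (fun i => Nat.gcd (K + l) (N + i))] at h2
    have h3 : Real.log K ≤ ∑ i : Fin ((l : ℕ) + 1), Real.log (gd K N l i) := by
      rw [← Real.log_prod]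
      · apply Real.log_le_log (by linarith)
        have : (K : ℝ) ≤ ((∏ i : Fin ((l : ℕ) + 1), Nat.gcd (K + l) (N + i) : ℕ) : ℝ) := by
          exact_mod_cast h2
        push_cast at this
        exact this
      · intro i _
        have := hdpos (⟨l, i⟩ : Pt R)
        positivity
    simp only [hw]
    rw [← sum_div, le_div_iff₀ hL, one_mul]
    exact h3
  have hW : 8 * (A : ℝ) ≤ ∑ j, w j ^ 2 := by
    refine hR.trans ?_
    rw [← Fin.sum_univ_eq_sum_range (fun l => 1 / ((l : ℝ) + 1)), Fintype.sum_sigma]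
    apply sum_le_sum
    intro l _
    have h1 := sq_sum_le_card_mul_sum_sq (s := (univ : Finset (Fin ((l : ℕ) + 1))))
      (f := fun i => w ⟨l, i⟩)
    rw [card_univ, Fintype.card_fin] at h1
    have h2 := hcol l
    have h3 : (1 : ℝ) ≤ (∑ i : Fin ((l : ℕ) + 1), w ⟨l, i⟩) ^ 2 := one_le_pow₀ h2
    rw [div_le_iff₀ (by positivity)]
    push_cast at h1
    linarith
  have hnum := numeric A P hA le_rfl w hw0 hw2 hW T hT
  -- the multiplicities
  have hfl : ∀ j, ⌊T * w j⌋₊ ≤ 2 * T := by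
    intro j
    apply Nat.floor_le_of_le
    push_cast
    have := hw2 j
    have h1 : (0 : ℝ) ≤ T := by positivity
    nlinarith
  set τ : Pt R → ℕ := fun j => ⌊T * w j⌋₊ with hτ
  set δ := deg A τ with hδ
  have hδR : δ ≤ 601 * R ^ 3 := deg_le A R T P hPR hT300 hR1 hT1 hP.symm τ hfl
  have hAδ2 : A * δ ^ 2 ≤ a := by
    rw [ha]
    exact Nat.mul_le_mul_left _ (Nat.pow_le_pow_left hδR 2)
  have hδ1 : 1 ≤ δ := by rw [hδ]; unfold deg; omega
  have hAδ : A * δ ≤ a := by nlinarith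
  have hδa : δ ≤ a := by nlinarith
  obtain ⟨f, hf0, hfh, hf⟩ := exists_aux_height (fun j : Pt R => (j.1 : ℕ))
    (fun j => (j.2 : ℕ)) r hr1 (fun j => by have := j.1.2; omega)
    (fun j => by have := j.1.2; have := j.2.2; omega) τ (A * δ) δ (cond_lt A hA τ)
  have hsum := sum_abs_le f _ hfh
  have hgrid : ∀ l i : ℕ, l < r → i < r → |(pol f).evalEval (l : ℤ) (i : ℤ)| ≤ MM r a := by
    intro l i hl hi
    rw [evalEval_pol]
    refine (abs_val_le' f (l : ℤ) (i : ℤ) r r (by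
      rw [Nat.abs_cast]; exact_mod_cast hl.le) (by
      rw [Nat.abs_cast]; exact_mod_cast hi.le) (by exact_mod_cast hr1) (by exact_mod_cast hr1)).trans ?_
    refine (mul_le_mul_of_nonneg_right hsum (by positivity)).trans ?_
    rw [← pow_add]
    exact_mod_cast MM_ge r a (A * δ) δ hr1 hAδ hδa
  -- the value at `(-K, -N)` is not zero
  have hne : H108.St.val f (-(K : ℤ)) (-(N : ℤ)) ≠ 0 := by
    rw [← evalEval_pol]
    exact descent A a r K N hA ha1 hr hK (by omega) hKN hNK hD δ hAδ2 (pol f) (pol_ne_zero f hf0)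
      (natDegree_pol f) (fun j => (coeff_coeff_pol f j).trans hAδ) hgrid
  set V := (H108.St.val f (-(K : ℤ)) (-(N : ℤ))).natAbs with hV
  have hVpos : 0 < V := Int.natAbs_pos.2 hne
  have hdvd : ∀ j : Pt R, gd K N j.1 j.2 ^ (τ j) ∣ V := by
    intro j
    have h1 := hf j (-(K : ℤ)) (-(N : ℤ)) (gd K N j.1 j.2) (by
      have : ((gd K N j.1 j.2 : ℕ) : ℤ) ∣ ((K + (j.1 : ℕ) : ℕ) : ℤ) :=
        Int.natCast_dvd_natCast.2 (Nat.gcd_dvd_left _ _)
      have e : -(K : ℤ) - ((j.1 : ℕ) : ℤ) = -((K + (j.1 : ℕ) : ℕ) : ℤ) := by push_cast; ring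
      rw [e]; exact (dvd_neg).2 this) (by
      have : ((gd K N j.1 j.2 : ℕ) : ℤ) ∣ ((N + (j.2 : ℕ) : ℕ) : ℤ) :=
        Int.natCast_dvd_natCast.2 (Nat.gcd_dvd_right _ _)
      have e : -(N : ℤ) - ((j.2 : ℕ) : ℤ) = -((N + (j.2 : ℕ) : ℕ) : ℤ) := by push_cast; ring
      rw [e]; exact (dvd_neg).2 this)
    rw [← Int.natCast_pow] at h1
    exact Int.natCast_dvd.1 h1
  have hprod := prod_dvd_of_gcd (univ : Finset (Pt R)) (fun j => gd K N j.1 j.2 ^ (τ j)) V
    (r.factorial ^ (2 * T)) (fun j _ => hdvd j) (by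
      intro j _ j' _ hjj'
      apply gcd_pow_dvd _ _ _ _ _ _ (hfl j) (hfl j')
      have e1 := j.1.2
      have e2 := j'.1.2
      have e3 := j.2.2
      have e4 := j'.2.2
      apply gcd_gd K N r _ _ _ _ (by omega) (by omega) (by omega) (by omega)
      by_contra hcon
      push Not at hcon
      apply hjj'
      obtain ⟨⟨a, ha⟩, ⟨b, hb⟩⟩ := j
      obtain ⟨⟨a', ha'⟩, ⟨b', hb'⟩⟩ := j'
      simp only at hcon
      obtain ⟨h1, h2⟩ := hcon
      subst h1; subst h2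
      rfl)
  rw [card_univ, ← hP] at hprod
  have hfac : 0 < r.factorial := Nat.factorial_pos r
  have hle := Nat.le_of_dvd (Nat.mul_pos hVpos (by positivity)) hprod
  have hexp : (r.factorial ^ (2 * T)) ^ (P ^ 2) ≤ r.factorial ^ (r ^ 2) := by
    rw [← pow_mul]
    apply Nat.pow_le_pow_right hfac
    have h1 : 2 * T * P ^ 2 ≤ 600 * R ^ 6 := by
      calc 2 * T * P ^ 2 ≤ 2 * (300 * R ^ 2) * (R ^ 2) ^ 2 :=
            Nat.mul_le_mul (Nat.mul_le_mul_left _ hT300) (Nat.pow_le_pow_left hPR 2)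
        _ = 600 * R ^ 6 := by ring
    nlinarith
  have hVle : V ≤ MM r a * (K ^ (A * δ) * K ^ (A * δ)) := by
    have h1 := abs_val_le' f (-(K : ℤ)) (-(N : ℤ)) K N (by simp) (by simp)
      (by exact_mod_cast (by omega : 1 ≤ K)) (by exact_mod_cast (by omega : 1 ≤ N))
    rw [Int.abs_eq_natAbs, ← hV] at h1
    have h2 : (V : ℤ) ≤ (((A * δ + 1) * (δ + 1) * hgt r (A * δ) δ : ℕ) : ℤ) *
        ((K : ℤ) ^ (A * δ) * (N : ℤ) ^ δ) :=
      h1.trans (mul_le_mul_of_nonneg_right hsum (by positivity))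
    have h3 : V ≤ ((A * δ + 1) * (δ + 1) * hgt r (A * δ) δ) *
        (K ^ (A * δ) * N ^ δ) := by exact_mod_cast h2
    refine h3.trans (Nat.mul_le_mul ?_ ?_)
    · refine le_trans ?_ (MM_ge r a (A * δ) δ hr1 hAδ hδa)
      exact Nat.le_mul_of_pos_right _ (by positivity)
    · apply Nat.mul_le_mul_left
      calc N ^ δ ≤ (K ^ A) ^ δ := Nat.pow_le_pow_left hNK δ
        _ = K ^ (A * δ) := (pow_mul _ _ _).symm
  have hccC : MM r a * r.factorial ^ (r ^ 2) < K := by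
    refine lt_of_le_of_lt (Nat.mul_le_mul_right _ ?_) hK
    exact Nat.le_self_pow (by omega) _
  have hfin : ∏ j : Pt R, gd K N j.1 j.2 ^ (τ j) < K ^ (2 * (A * δ) + 1) := by
    calc ∏ j : Pt R, gd K N j.1 j.2 ^ (τ j) ≤ V * (r.factorial ^ (2 * T)) ^ (P ^ 2) := hle
      _ ≤ (MM r a * (K ^ (A * δ) * K ^ (A * δ))) * r.factorial ^ (r ^ 2) :=
          Nat.mul_le_mul hVle hexp
      _ = (MM r a * r.factorial ^ (r ^ 2)) * (K ^ (A * δ) * K ^ (A * δ)) := by ring
      _ < K * (K ^ (A * δ) * K ^ (A * δ)) := by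
          apply Nat.mul_lt_mul_of_pos_right hccC
          positivity
      _ = K ^ (2 * (A * δ) + 1) := by rw [pow_succ, two_mul, pow_add]; ring
  have hlog : ∑ j : Pt R, (τ j : ℝ) * Real.log (gd K N j.1 j.2) <
      (2 * (A * δ) + 1) * Real.log K := by
    have h1 : Real.log ((∏ j : Pt R, gd K N j.1 j.2 ^ (τ j) : ℕ) : ℝ) <
        Real.log ((K ^ (2 * (A * δ) + 1) : ℕ) : ℝ) := by
      apply Real.log_lt_log
      · have : 0 < ∏ j : Pt R, gd K N j.1 j.2 ^ (τ j) := prod_pos fun j _ => pow_pos (hdpos j) _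
        exact_mod_cast this
      · exact_mod_cast hfin
    push_cast at h1
    rw [Real.log_pow, Real.log_prod (by
      intro j _
      have := hdpos j
      positivity)] at h1
    simp only [Real.log_pow] at h1
    push_cast at h1
    exact h1
  have hlast : ∑ j : Pt R, (τ j : ℝ) * w j < 2 * (A : ℝ) * δ + 1 := by
    have h1 : ∑ j : Pt R, (τ j : ℝ) * w j = (∑ j : Pt R, (τ j : ℝ) *
        Real.log (gd K N j.1 j.2)) / Real.log K := by
      rw [sum_div]
      apply sum_congr rfl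
      intro j _
      simp only [hw]
      ring
    rw [h1, div_lt_iff₀ hL]
    calc _ < _ := hlog
      _ = _ := by ring
  exact absurd (hnum.trans hlast) (lt_irrefl _)

end Pool.Agent.H424.SG
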