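import Pool.Agent.H108.St.Taylor

/-!
# Polynomials in two variables: roots, reduction modulo primes, degrees
-/

set_option autoImplicit false
open Finset Polynomial

namespace Pool.Agent.H424.SG

open Pool.Agent.H108.St

theorem prod_form {R : Type*} [CommRing R] [IsDomain R] [DecidableEq R] (q : R[X]) (hq : q ≠ 0)
    (Z : Finset R) (hZ : ∀ z ∈ Z, q.eval z = 0) (hc : q.natDegree ≤ Z.card) :
    Z.card = q.natDegree ∧ q = C q.leadingCoeff * ∏ z ∈ Z, (X - C z) := by
  have h1 : Z.val ≤ q.roots := by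
    rw [Multiset.le_iff_subset Z.nodup]
    intro z hz
    rw [mem_roots hq]
    exact hZ z hz
  have h2 : Multiset.card q.roots ≤ q.natDegree := card_roots' q
  have h3 : Z.val = q.roots := by
    apply Multiset.eq_of_le_of_card_le h1
    exact h2.trans hc
  have h4 : Multiset.card q.roots = q.natDegree := by
    apply le_antisymm h2
    rw [← h3]; exact hc
  refine ⟨?_, ?_⟩
  · rw [← h4, ← h3]; rfl
  · conv_lhs => rw [← C_leadingCoeff_mul_prod_multiset_X_sub_C h4]
    rw [← h3]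
    rfl

theorem dvd_of_roots_mod (g : ℤ[X]) (a p : ℕ) (hp : p.Prime) (hdeg : g.natDegree ≤ a)
    (S : Finset ℕ) (hS : ∀ x ∈ S, x < p) (hroot : ∀ x ∈ S, (p : ℤ) ∣ g.eval (x : ℤ))
    (hcard : a < S.card) : C (p : ℤ) ∣ g := by
  classical
  have : Fact p.Prime := ⟨hp⟩
  have hinj : Set.InjOn (fun x : ℕ => (x : ZMod p)) S := by
    intro x hx y hy hxy
    have h1 := (ZMod.natCast_eq_natCast_iff' x y p).1 hxy
    rwa [Nat.mod_eq_of_lt (hS x hx), Nat.mod_eq_of_lt (hS y hy)] at h1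
  have h0 : g.map (Int.castRingHom (ZMod p)) = 0 := by
    apply Polynomial.eq_zero_of_natDegree_lt_card_of_eval_eq_zero' _
      (S.image (fun x : ℕ => (x : ZMod p)))
    · intro z hz
      obtain ⟨x, hx, rfl⟩ := mem_image.1 hz
      have h1 : (g.map (Int.castRingHom (ZMod p))).eval ((x : ℤ) : ZMod p) =
          ((g.eval (x : ℤ) : ℤ) : ZMod p) := Polynomial.eval_intCast_map _ _ _
      rw [Int.cast_natCast] at h1
      rw [h1]
      exact (ZMod.intCast_zmod_eq_zero_iff_dvd _ p).2 (hroot x hx)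
    · rw [card_image_of_injOn hinj]
      exact lt_of_le_of_lt (natDegree_map_le.trans hdeg) hcard
  rw [C_dvd_iff_dvd_coeff]
  intro i
  have h1 := congrArg (fun q => q.coeff i) h0
  simp only [coeff_map, coeff_zero] at h1
  exact (ZMod.intCast_zmod_eq_zero_iff_dvd _ p).1 h1

theorem eval_eval_congr (p : ℤ[X][X]) (x : ℤ) (a b : ℤ[X]) (hab : a.eval x = b.eval x) :
    (p.eval a).eval x = (p.eval b).eval x := by
  obtain ⟨w, hw⟩ := sub_dvd_eval_sub a b p
  have := congrArg (eval x) hw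
  rw [eval_sub, eval_mul, eval_sub, hab, sub_self, zero_mul] at this
  linarith

theorem natDegree_eval_le (G : ℤ[X][X]) (ρ : ℤ[X]) (a d : ℕ) (ha : ∀ j, (G.coeff j).natDegree ≤ a)
    (hρ : ρ.natDegree ≤ d) : (G.eval ρ).natDegree ≤ a + G.natDegree * d := by
  rw [eval_eq_sum_range]
  apply natDegree_sum_le_of_forall_le
  intro j hj
  rw [mem_range, Nat.lt_succ_iff] at hj
  refine natDegree_mul_le.trans ?_
  apply Nat.add_le_add (ha j)
  exact natDegree_pow_le.trans (Nat.mul_le_mul hj hρ)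

theorem eq_zero_of_roots (g : ℤ[X]) (a : ℕ) (hdeg : g.natDegree ≤ a) (S : Finset ℕ)
    (hroot : ∀ x ∈ S, g.eval (x : ℤ) = 0) (hcard : a < S.card) : g = 0 := by
  classical
  apply Polynomial.eq_zero_of_natDegree_lt_card_of_eval_eq_zero' _
    (S.image (fun x : ℕ => (x : ℤ)))
  · intro z hz
    obtain ⟨x, hx, rfl⟩ := mem_image.1 hz
    exact hroot x hx
  · rw [card_image_of_injective _ Nat.cast_injective]
    omega

theorem coeff_coeff_pol {a b : ℕ} (f : Fin (a + 1) × Fin (b + 1) → ℤ) (j : ℕ) :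
    ((pol f).coeff j).natDegree ≤ a := by
  unfold pol
  rw [finsetSum_coeff]
  apply natDegree_sum_le_of_forall_le
  intro e _
  rw [coeff_C_mul, coeff_X_pow]
  split_ifs
  · rw [mul_one]
    exact (natDegree_C_mul_X_pow_le _ _).trans (Nat.lt_succ_iff.1 e.1.2)
  · rw [mul_zero, natDegree_zero]; exact Nat.zero_le _

theorem natDegree_pol {a b : ℕ} (f : Fin (a + 1) × Fin (b + 1) → ℤ) :
    (pol f).natDegree ≤ b := by
  unfold pol
  apply natDegree_sum_le_of_forall_le
  intro e _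
  exact (natDegree_C_mul_X_pow_le _ _).trans (Nat.lt_succ_iff.1 e.2.2)

theorem abs_val_le' {a b : ℕ} (f : Fin (a + 1) × Fin (b + 1) → ℤ) (x y X Y : ℤ) (hx : |x| ≤ X)
    (hy : |y| ≤ Y) (hX : 1 ≤ X) (hY : 1 ≤ Y) :
    |H108.St.val f x y| ≤ (∑ e, |f e|) * (X ^ a * Y ^ b) := by
  unfold H108.St.val
  refine (Finset.abs_sum_le_sum_abs _ _).trans ?_
  rw [Finset.sum_mul]
  apply Finset.sum_le_sum
  intro e _
  rw [abs_mul, abs_mul, abs_pow, abs_pow, mul_assoc]
  apply mul_le_mul_of_nonneg_left _ (abs_nonneg _)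
  apply mul_le_mul
  · exact (pow_le_pow_left₀ (abs_nonneg _) hx _).trans
      (pow_le_pow_right₀ hX (Nat.lt_succ_iff.1 e.1.2))
  · exact (pow_le_pow_left₀ (abs_nonneg _) hy _).trans
      (pow_le_pow_right₀ hY (Nat.lt_succ_iff.1 e.2.2))
  · positivity
  · positivity

end Pool.Agent.H424.SG
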