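import Mathlib

/-!
# A lower bound for the number of primes
-/

set_option autoImplicit false
open Finset

namespace Pool.Agent.H424.SG

theorem le_primeCounting (a x : ℕ) (ha : 1 ≤ a) (hx : 3844 * a ^ 2 ≤ x) :
    16 * a + 3 ≤ Nat.primeCounting x := by
  have h1 := Chebyshev.pi_ge x
  have ha' : (1 : ℝ) ≤ a := by exact_mod_cast ha
  have hx' : 3844 * (a : ℝ) ^ 2 ≤ x := by exact_mod_cast hx
  have hx0 : (3844 : ℝ) ≤ x := by nlinarith
  set s : ℝ := Real.sqrt x with hs
  have hs2 : s ^ 2 = x := Real.sq_sqrt (by linarith)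
  have hs0 : 0 ≤ s := Real.sqrt_nonneg _
  have hsa : 62 * (a : ℝ) ≤ s := by
    rw [hs]
    apply Real.le_sqrt_of_sq_le
    nlinarith
  have hs62 : 62 ≤ s := by nlinarith
  have l1 : Real.log x ≤ 2 * s - 2 := by
    rw [← hs2, Real.log_pow]
    have := Real.log_le_sub_one_of_pos (show 0 < s by linarith)
    push_cast
    linarith
  have l2 : Real.log (x + 1) ≤ 2 * s := by
    have h2 : Real.log ((x : ℝ) + 1) ≤ Real.log ((s + 1) ^ 2) := by
      apply Real.log_le_log (by linarith)
      nlinarith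
    rw [Real.log_pow] at h2
    have := Real.log_le_sub_one_of_pos (show 0 < s + 1 by linarith)
    push_cast at h2
    linarith
  have l3 : 0 < Real.log x := Real.log_pos (by linarith)
  have l4 := Real.log_two_gt_d9
  rw [div_le_iff₀ l3] at h1
  have h2 : (16 * (a : ℝ) + 3) * Real.log x ≤ (x * Real.log 2 - Real.log (x + 1)) := by
    have h3 : (16 * (a : ℝ) + 3) * Real.log x ≤ (16 * a + 3) * (2 * s - 2) :=
      mul_le_mul_of_nonneg_left l1 (by positivity)
    have h4 : (x : ℝ) * Real.log 2 ≥ s ^ 2 * 0.69 := by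
      rw [hs2]
      apply mul_le_mul_of_nonneg_left _ (by positivity)
      linarith
    have h5 : (16 * (a : ℝ) + 3) ≤ 19 / 62 * s := by nlinarith
    have h6 : (16 * (a : ℝ) + 3) * (2 * s - 2) ≤ 19 / 62 * s * (2 * s - 2) :=
      mul_le_mul_of_nonneg_right h5 (by linarith)
    nlinarith
  have h3 : (16 * (a : ℝ) + 3) * Real.log x ≤ (Nat.primeCounting x : ℝ) * Real.log x :=
    h2.trans h1
  have h4 := le_of_mul_le_mul_right h3 l3
  exact_mod_cast h4

theorem card_primes (a x L : ℕ) (ha : 1 ≤ a) (hx : 3844 * a ^ 2 ≤ x) (hL : L ≤ 10 * a + 1) :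
    6 * a + 2 ≤ ((Ioc L x).filter Nat.Prime).card := by
  have h1 := le_primeCounting a x ha hx
  rw [Nat.primeCounting, Nat.primeCounting', Nat.count_eq_card_filter_range] at h1
  have h1' : 16 * a + 3 ≤ ((range (x + 1)).filter Nat.Prime).card := h1
  have h2 : (range (x + 1)).filter Nat.Prime ⊆
      (Ioc L x).filter Nat.Prime ∪ (range (L + 1)).filter Nat.Prime := by
    intro p hp
    simp only [mem_union, mem_filter, mem_range, mem_Ioc] at hp ⊢
    by_cases h : p < L + 1
    · exact Or.inr ⟨h, hp.2⟩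
    · exact Or.inl ⟨⟨by omega, by omega⟩, hp.2⟩
  have h3 := (card_le_card h2).trans (card_union_le _ _)
  have h4 : ((range (L + 1)).filter Nat.Prime).card ≤ L := by
    have : (range (L + 1)).filter Nat.Prime ⊆ Ioc 0 L := by
      intro p hp
      simp only [mem_filter, mem_range, mem_Ioc] at hp ⊢
      exact ⟨hp.2.pos, by omega⟩
    refine (card_le_card this).trans ?_
    simp
  omega

end Pool.Agent.H424.SG
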