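import Pool.Agent.H424.SG.Poly
import Pool.Agent.H424.SG.Primes

/-!
# Polynomials with many integral zeros in almost all columns are products of linear polynomials
-/

set_option autoImplicit false
open Finset Polynomial

namespace Pool.Agent.H424.SG

open Pool.Agent.H108.St

/-- The zeros `i ≤ l` of `G(l, y)`. -/
noncomputable def Zr (G : ℤ[X][X]) (l : ℕ) : Finset ℕ :=
  (range (l + 1)).filter fun i => G.evalEval (l : ℤ) (i : ℤ) = 0

theorem mem_Zr {G : ℤ[X][X]} {l i : ℕ} : i ∈ Zr G l ↔ i ≤ l ∧ G.evalEval (l : ℤ) (i : ℤ) = 0 := by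
  simp [Zr]

/-- The column `l` contains as many zeros as possible. -/
def Gd (G : ℤ[X][X]) (l : ℕ) : Prop :=
  G.natDegree ≤ (Zr G l).card ∧ G.leadingCoeff.eval (l : ℤ) ≠ 0

theorem Gd.form {G : ℤ[X][X]} {l : ℕ} (h : Gd G l) :
    (Zr G l).card = G.natDegree ∧
      G.map (evalRingHom (l : ℤ)) = C (G.leadingCoeff.eval (l : ℤ)) *
        ∏ i ∈ Zr G l, (X - C (i : ℤ)) := by
  classical
  obtain ⟨h1, h2⟩ := h
  have h3 : (evalRingHom (l : ℤ)) G.leadingCoeff ≠ 0 := by simpa using h2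
  have h4 := natDegree_map_of_leadingCoeff_ne_zero (evalRingHom (l : ℤ)) h3
  have h5 := leadingCoeff_map_of_leadingCoeff_ne_zero (evalRingHom (l : ℤ)) h3
  have h6 : G.map (evalRingHom (l : ℤ)) ≠ 0 := by
    intro h0
    rw [h0, leadingCoeff_zero] at h5
    exact h3 h5.symm
  obtain ⟨h7, h8⟩ := prod_form (G.map (evalRingHom (l : ℤ))) h6
    ((Zr G l).image fun i : ℕ => (i : ℤ)) (by
      intro z hz
      obtain ⟨i, hi, rfl⟩ := mem_image.1 hz
      rw [map_evalRingHom_eval]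
      exact (mem_Zr.1 hi).2) (by
      rw [card_image_of_injective _ Nat.cast_injective, h4]
      exact h1)
  rw [card_image_of_injective _ Nat.cast_injective, h4] at h7
  refine ⟨h7, ?_⟩
  rw [prod_image (fun x _ y _ h => Nat.cast_injective h), h5] at h8
  exact h8

theorem Gd.eval {G : ℤ[X][X]} {l : ℕ} (h : Gd G l) (y : ℤ) :
    G.evalEval (l : ℤ) y = G.leadingCoeff.eval (l : ℤ) * ∏ i ∈ Zr G l, (y - (i : ℤ)) := by
  rw [← map_evalRingHom_eval, h.form.2, eval_mul, eval_C, eval_prod]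
  simp

theorem exists_split (G : ℤ[X][X]) (hG : G ≠ 0) (p : ℕ) (hp : p.Prime) :
    ∃ (c : ℤ) (G' : ℤ[X][X]), c ≠ 0 ∧ G = C (C c) * G' ∧ ¬ C (C (p : ℤ)) ∣ G' := by
  have hu : ¬ IsUnit (C (C (p : ℤ)) : ℤ[X][X]) := by
    rw [isUnit_C, isUnit_C, Int.isUnit_iff_natAbs_eq]
    have := hp.one_lt
    simp only [Int.natAbs_natCast]
    omega
  obtain ⟨n, G', h1, h2⟩ := WfDvdMonoid.max_power_factor' hG hu
  refine ⟨(p : ℤ) ^ n, G', ?_, ?_, h1⟩
  · have := hp.pos
    positivity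
  · rw [h2, C_pow, C_pow]

section scale
variable {c : ℤ} (hc : c ≠ 0) (G : ℤ[X][X])
include hc

theorem Zr_scale (l : ℕ) : Zr (C (C c) * G) l = Zr G l := by
  ext i
  rw [mem_Zr, mem_Zr]
  simp [evalEval, hc]

theorem natDegree_scale : (C (C c) * G).natDegree = G.natDegree :=
  natDegree_C_mul (by simpa using hc)

theorem Gd_scale (l : ℕ) : Gd (C (C c) * G) l ↔ Gd G l := by
  unfold Gd
  rw [Zr_scale hc, natDegree_scale hc, leadingCoeff_mul, leadingCoeff_C, eval_mul, eval_C]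
  simp [hc]

theorem natDegree_coeff_scale (j : ℕ) :
    ((C (C c) * G).coeff j).natDegree = (G.coeff j).natDegree := by
  rw [coeff_C_mul, natDegree_C_mul hc]

end scale

/-- The leading coefficient is not divisible by large primes `p`. -/
theorem not_dvd_lc (G : ℤ[X][X]) (a ε p r : ℕ) (ha : ∀ j, (G.coeff j).natDegree ≤ a)
    (hp : p.Prime) (hpG : ¬ C (C (p : ℤ)) ∣ G)
    (hbad : ∀ S : Finset ℕ, (∀ l ∈ S, l < r ∧ ¬ Gd G l) → S.card ≤ ε) (hpa : a + ε < p)
    (hpr : p ≤ r) : ¬ C (p : ℤ) ∣ G.leadingCoeff := by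
  classical
  intro hlc
  apply hpG
  rw [C_dvd_iff_dvd_coeff]
  intro j
  apply dvd_of_roots_mod (G.coeff j) a p hp (ha j) ((range p).filter (Gd G))
  · intro x hx
    exact mem_range.1 (mem_filter.1 hx).1
  · intro x hx
    have hg := (mem_filter.1 hx).2
    have h1 : (G.coeff j).eval (x : ℤ) = (G.map (evalRingHom (x : ℤ))).coeff j := by
      rw [coeff_map]; rfl
    rw [h1, hg.form.2, coeff_C_mul]
    apply Dvd.dvd.mul_right
    obtain ⟨w, hw⟩ := hlc
    rw [hw, eval_mul, eval_C]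
    exact dvd_mul_right _ _
  · have h1 : ((range p).filter (Gd G)).card + ((range p).filter fun l => ¬ Gd G l).card = p := by
      rw [card_filter_add_card_filter_not, card_range]
    have h2 := hbad ((range p).filter fun l => ¬ Gd G l) (by
      intro l hl
      rw [mem_filter, mem_range] at hl
      exact ⟨by omega, hl.2⟩)
    omega

/-- The zeros in the column `l + p`. -/
theorem zero_shift (G : ℤ[X][X]) (p l i : ℕ) (hp : p.Prime) (hl : l < p) (h1 : Gd G (l + p))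
    (hlc : ¬ (p : ℤ) ∣ G.leadingCoeff.eval (l : ℤ)) (hi : i ∈ Zr G l) :
    G.evalEval ((l + p : ℕ) : ℤ) (i : ℤ) = 0 ∨ G.evalEval ((l + p : ℕ) : ℤ) ((i + p : ℕ) : ℤ) = 0 := by
  have h2 := h1.eval (i : ℤ)
  have hp' : Prime (p : ℤ) := Nat.prime_iff_prime_int.1 hp
  have h3 : (p : ℤ) ∣ G.evalEval ((l + p : ℕ) : ℤ) (i : ℤ) := by
    have h4 := evalEval_congr G (p : ℤ) ((l + p : ℕ) : ℤ) (i : ℤ) (l : ℤ) (i : ℤ) (by
      push_cast; simp) (by simp)
    rwa [(mem_Zr.1 hi).2, sub_zero] at h4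
  have h4 : ¬ (p : ℤ) ∣ G.leadingCoeff.eval ((l + p : ℕ) : ℤ) := by
    intro h5
    apply hlc
    have h6 : (p : ℤ) ∣ G.leadingCoeff.eval ((l + p : ℕ) : ℤ) - G.leadingCoeff.eval (l : ℤ) := by
      refine dvd_trans ?_ (sub_dvd_eval_sub _ _ _)
      push_cast; simp
    have h7 := dvd_sub h5 h6
    simpa using h7
  rw [h2] at h3
  rcases hp'.dvd_or_dvd h3 with h5 | h5
  · exact absurd h5 h4
  obtain ⟨k, hk, h6⟩ := (Prime.dvd_finsetProd_iff hp' _).1 h5
  have hk' := mem_Zr.1 hk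
  have hi' := mem_Zr.1 hi
  obtain ⟨w, hw⟩ := h6
  have hp0 : (0 : ℤ) < p := by exact_mod_cast hp.pos
  have e1 : (k : ℤ) ≤ l + p := by exact_mod_cast hk'.1
  have e2 : (i : ℤ) ≤ l := by exact_mod_cast hi'.1
  have e3 : (l : ℤ) < p := by exact_mod_cast hl
  have e4 : (0 : ℤ) ≤ i := by positivity
  have e5 : (0 : ℤ) ≤ k := by positivity
  have hw1 : w < 1 := by
    by_contra hcon
    push Not at hcon
    nlinarith
  have hw2 : -2 < w := by
    by_contra hcon
    push Not at hcon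
    nlinarith
  rcases (by omega : w = 0 ∨ w = -1) with h7 | h7
  · left
    rw [h7, mul_zero] at hw
    have : (k : ℤ) = i := by linarith
    rw [← this]
    exact hk'.2
  · right
    rw [h7] at hw
    have : (k : ℤ) = ((i + p : ℕ) : ℤ) := by push_cast; linarith
    rw [← this]
    exact hk'.2

/-- The property of `l` and `p` we are after. -/
def OK (G : ℤ[X][X]) (l p : ℕ) : Prop :=
  Gd G l ∧ ∀ i ∈ Zr G l, G.evalEval ((l + p : ℕ) : ℤ) (i : ℤ) = 0 ∨
    G.evalEval ((l + p : ℕ) : ℤ) ((i + p : ℕ) : ℤ) = 0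

theorem card_not_OK (G : ℤ[X][X]) (hG : G ≠ 0) (a ε p r L : ℕ)
    (ha : ∀ j, (G.coeff j).natDegree ≤ a) (hp : p.Prime)
    (hbad : ∀ S : Finset ℕ, (∀ l ∈ S, l < r ∧ ¬ Gd G l) → S.card ≤ ε) (hpa : a + ε < p)
    (hLp : L ≤ p) (hLr : L + p ≤ r) (S : Finset ℕ) (hS : ∀ l ∈ S, l < L ∧ ¬ OK G l p) :
    S.card ≤ 2 * ε + a := by
  classical
  obtain ⟨c, G', hc, hGG, hpG⟩ := exists_split G hG p hp
  have hgd : ∀ l, Gd G l ↔ Gd G' l := fun l => by rw [hGG]; exact Gd_scale hc G' l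
  have hzr : ∀ l, Zr G l = Zr G' l := fun l => by rw [hGG]; exact Zr_scale hc G' l
  have ha' : ∀ j, (G'.coeff j).natDegree ≤ a := fun j => by
    rw [← natDegree_coeff_scale hc G' j, ← hGG]; exact ha j
  have hbad' : ∀ S : Finset ℕ, (∀ l ∈ S, l < r ∧ ¬ Gd G' l) → S.card ≤ ε := by
    intro S hS
    apply hbad S
    intro l hl
    rw [hgd]
    exact hS l hl
  have hlc := not_dvd_lc G' a ε p r ha' hp hpG hbad' hpa (by omega)
  have h1 : S ⊆ S.filter (fun l => ¬ Gd G l) ∪ (S.filter (fun l => ¬ Gd G (l + p)) ∪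
      S.filter (fun l : ℕ => (p : ℤ) ∣ G'.leadingCoeff.eval (l : ℤ))) := by
    intro l hl
    rw [mem_union, mem_union, mem_filter, mem_filter, mem_filter]
    by_contra hcon
    push Not at hcon
    obtain ⟨c1, c2, c3⟩ := hcon
    obtain ⟨hlL, hnot⟩ := hS l hl
    apply hnot
    refine ⟨c1 hl, ?_⟩
    intro i hi
    rw [hzr] at hi
    have h2 := zero_shift G' p l i hp (by omega) ((hgd _).1 (c2 hl)) (c3 hl) hi
    rw [hGG, evalEval_mul, evalEval_mul]
    rcases h2 with h2 | h2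
    · left; rw [h2, mul_zero]
    · right; rw [h2, mul_zero]
  have h2 := (card_le_card h1).trans ((card_union_le _ _).trans
    (Nat.add_le_add_left (card_union_le _ _) _))
  have h3 := hbad (S.filter (fun l => ¬ Gd G l)) (by
    intro l hl
    rw [mem_filter] at hl
    have := (hS l hl.1).1
    exact ⟨by omega, hl.2⟩)
  have h4 : (S.filter (fun l => ¬ Gd G (l + p))).card ≤ ε := by
    have h5 := hbad ((S.filter (fun l => ¬ Gd G (l + p))).image (fun l => l + p)) (by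
      intro m hm
      obtain ⟨l, hl, rfl⟩ := mem_image.1 hm
      rw [mem_filter] at hl
      have := (hS l hl.1).1
      exact ⟨by omega, hl.2⟩)
    rwa [card_image_of_injective _ (add_left_injective p)] at h5
  have h5 : (S.filter (fun l : ℕ => (p : ℤ) ∣ G'.leadingCoeff.eval (l : ℤ))).card ≤ a := by
    by_contra hcon
    push Not at hcon
    apply hlc
    apply dvd_of_roots_mod G'.leadingCoeff a p hp (ha' _)
      (S.filter (fun l : ℕ => (p : ℤ) ∣ G'.leadingCoeff.eval (l : ℤ))) _ _ hcon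
    · intro l hl
      rw [mem_filter] at hl
      have := (hS l hl.1).1
      omega
    · intro l hl
      exact (mem_filter.1 hl).2
  omega

end Pool.Agent.H424.SG
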